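import Pool.Agent.T2h11.PHK.Pur

/-!
# The p-adic weight-monodromy conjecture for projective hyperkähler varieties

Let `X` be a projective hyperkähler variety over a number field `K`, of any deformation type, and let
`u` be a place of `K` above `p`. We prove the p-adic weight-monodromy conjecture for the Hyodo-Kato
cohomology `H^i_HK(X)` at `u`, in all degrees `i`. Inputs are the conjecture for `H²` (known), the
action of `so(H²)` on the cohomology (Verbitsky, Looijenga-Lunts), standard facts on the cohomology
at the places of good reduction, and the comparison between the p-adic étale cohomology and the
Hyodo-Kato cohomology.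

Idea of the proof. Let `A_i` be the algebra of the endomorphisms of the p-adic étale cohomology `H^i`
which commute with `so(H²)`. At the places `v` of good reduction which do not divide `p`, the first
part of the proof of the `ℓ`-adic theorem (file MP_855f4c_ag.HyperkaehlerVarieties) shows: the
eigenvalues of a Frobenius element on `A_i` are roots of unity of bounded order, and, if it fixes an
idempotent `z` in the center of `A_i`, then its determinant on the image of `z` is, up to a root of
unity of bounded order, a power of its multiplier for the form on `H²`. There is no such argument at
the places above `p`: a Frobenius element does not act on the p-adic étale cohomology by the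
Frobenius of the Hyodo-Kato cohomology.

(1) The first statement is a polynomial identity: `(Ad(g)^e - 1)^m = 0` on `A_i`. It holds for the
Frobenius elements, so for the Galois group, so for the Zariski closure `G` of its image.

(2) The second statement is a polynomial identity, too. The idempotents `z` and `g z g⁻¹` commute,
of rank `n`, so the rank `c(g)` of `z g z g⁻¹` is in `{0, ..., n}`, and `c(g) = n` if and only if `g`
commutes with `z`. Hence `∏_{k < n} (c(g) - k) * (det(g z + 1 - z)^{4 e} - μ(g)^{i n e}) = 0` for all
`g` in the image of the Galois group, so for all `g` in `G`.

(3) The Frobenius `F` of the Hyodo-Kato cohomology is an element of `G` (after an identification of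
the fibre functors, over an algebraically closed field). So (1) and (2) hold for `F`. As in the
`ℓ`-adic case, `N_i - ρ_i (N_2)` is in `A_i` and it is an eigenvector of `Ad(F)` with eigenvalue `1 / q`,
so `N_i = ρ_i (N_2)` by (1). Let `D_i` be the weight operator of `F`, minus `i`. Then
`D_i = ρ_i (D_2) + T_i` with `T_i` in the center of `A_i`, by (1); by (2) the mean weight of an
eigenspace of `T_i` is `i`, so `T_i` is nilpotent.

(4) The conjecture for `H²` gives an `sl₂`-triple `(Y, D_2, N_2)` in `so(H²)`. Its image in the
endomorphisms of `H^i` shows the conjecture for `H^i`.
-/

set_option autoImplicit false

namespace Pool.Agent.Results.MP_d037d4_ag.HyperkaehlerVarieties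

open Pool.Agent.N184.HK Pool.Agent.T2h11.PHK NumberField IsDedekindDomain

/-- **The p-adic weight-monodromy conjecture for projective hyperkähler varieties.** Let `X` be a
projective hyperkähler variety over the number field `K`, and `u` a place of `K` above `p`, with the
Hyodo-Kato cohomology `D`. Then the Frobenius is pure of weight `i + j` on the graded piece of degree
`j` of the monodromy filtration of `H^i_HK(X)`, for all `i` and `j`. -/
theorem result {K : Type} [Field K] [NumberField K] {Ω : Type} [Field Ω] [CharZero Ω]
    [IsAlgClosed Ω] [TopologicalSpace Ω] [IsTopologicalRing Ω] [T2Space Ω] (X : HKVariety K Ω)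
    (u : HeightOneSpectrum (𝓞 K)) (D : HyodoKato X u) :
    ∀ i ≤ X.d, D.IsPure i :=
  fun _ hi => hk_pure D hi

end Pool.Agent.Results.MP_d037d4_ag.HyperkaehlerVarieties
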