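import Pool.Agent.T2h11.WMP.Dual

/-!
# MP_d037d4_ag: the graded pieces of weight two and four of `H^3` of threefolds with
`rank (N ^ 2) = 2 h^(0, 3)`
-/

set_option autoImplicit false

open Module

universe u v

namespace Pool.Agent.Results.MP_d037d4_ag.TateTypeGradedPiece

open Pool.Agent.Y143 Pool.Agent.T2h11.WMP

/-- **The Frobenius eigenvalues on `gr_2 H^3` and `gr_4 H^3` for threefolds with
`rank (N ^ 2) = 2 h^(0, 3)`.** Let `X_K` be a smooth proper threefold over a finite extension `K` of
`ℚ_p`, with a strictly semistable model over the ring of integers with projective special fibre, with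
residue field with `q` elements. Suppose that `H^2(X_K, O) = 0` and that the rank of `N ^ 2` on the
Hyodo-Kato cohomology `H^3` is (at least) `2 h^(0, 3)`: for example `H^3(X_K, O) = 0`, or `X_K` is a
Calabi-Yau threefold with `N ^ 2 ≠ 0`. Then every Frobenius eigenvalue on the graded piece of weight
`2` of `H^3` is `q` times a root of unity, and every Frobenius eigenvalue on the graded piece of
weight `4` is `q ^ 2` times a root of unity. No conjecture is assumed. For projective `X_K` these are the
two pieces between which the weight-monodromy conjecture is open: it can fail only on Tate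
classes.

The hypotheses `hX`, `hN`, `h2` are as in `ThreefoldsMaximalRank`: `hX` (known, Katz-Messing, Weil, and
weak admissibility): integrality and rationality of the Frobenius eigenvalues on the strata and on
`W_1 H^3`, and the Newton polygon of `H^3` lies above the Hodge polygon; `hN`: the condition on the rank
of `N ^ 2`; `h2`: the Frobenius eigenvalues on `gr_2 H^2` are products of `q` and roots of unity, which
is the case if `H^2(X_K, O) = 0`, because then `H^2` is spanned by classes of divisors. -/
theorem result {Ω : Type u} [Field Ω] [CharZero Ω] [IsAlgClosed Ω] {Γ : Type} {q : ℕ}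
    (hq : IsPrimePow q) (X : SemistableModel.{u, v} Ω Γ 3 q) (A : DivisorClasses X.toSpecialFibre)
    {val : Ω → ℝ} {hdg : ℕ → ℕ} (hX : PadicFacts X val hdg) (hN : MaximalRank X hdg)
    (h2 : TateTypeH2 X) : TateTypeH3 X :=
  tate_both hq X A hX hN h2

end Pool.Agent.Results.MP_d037d4_ag.TateTypeGradedPiece
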