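import Pool.Agent.T2h11.WMP.Rank

/-!
# MP_d037d4_ag: threefolds for which `N ^ 2` has the maximal rank `2 h^(0, 3)` on `H^3`
-/

set_option autoImplicit false

open Module

universe u v

namespace Pool.Agent.Results.MP_d037d4_ag.ThreefoldsMaximalRank

open Pool.Agent.Y143 Pool.Agent.T2h11.WMP

/-- **The `p`-adic weight-monodromy conjecture for threefolds with `rank (N ^ 2) = 2 h^(0, 3)`.** Let
`X_K` be a smooth projective threefold over a finite extension `K` of `ℚ_p`, with a projective
strictly semistable model over the ring of integers, with residue field with `q` elements. Suppose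
that `H^2(X_K, O) = 0` and that the rank of `N ^ 2` on the Hyodo-Kato cohomology `H^3` is (at least)
`2 h^(0, 3)`, with `h^(0, 3) = dim H^3(X_K, O)`: for example `H^3(X_K, O) = 0`, or `X_K` is a
Calabi-Yau threefold (`h^(0, 3) = 1`) with `N ^ 2 ≠ 0` (then the rank of `N ^ 2` is `2`). Suppose also
that the irreducible components of the special fibre satisfy the Tate conjecture for divisors. Then
the Hyodo-Kato cohomology `H^k` is mw pure of weight `k`, for all `k`.

Here `X` is the `p`-adic theory (crystalline cohomology of the strata of the special fibre,
Hyodo-Kato cohomology and the weight spectral sequence of Mokrane), with coefficients extended to an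
algebraically closed field `Ω` with the valuation `val`. The hypotheses are the following.

* `hX` (known, Katz-Messing, Weil, and weak admissibility): integrality and rationality of the
  Frobenius eigenvalues on the strata and on `W_1 H^3`; the Newton polygon of `H^3` lies above the
  Hodge polygon, `hdg a` being the Hodge number `h^(a, 3 - a)`.
* `hN`: the condition on the rank of `N ^ 2`.
* `h2`: the Frobenius eigenvalues on `gr_2 H^2` are products of `q` and roots of unity; this is the
  case if `H^2(X_K, O) = 0`, because then `H^2` is spanned by classes of divisors.
* `hT`: the Tate conjecture for divisors on the components. -/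
theorem result {Ω : Type u} [Field Ω] [CharZero Ω] [IsAlgClosed Ω] {Γ : Type} {q : ℕ}
    (hq : IsPrimePow q) (X : Degeneration.{u, v} Ω Γ 3 q) (A : DivisorClasses X.toSpecialFibre)
    {val : Ω → ℝ} {hdg : ℕ → ℕ} (hX : PadicFacts X.toSemistableModel val hdg)
    (hN : MaximalRank X.toSemistableModel hdg) (h2 : TateTypeH2 X.toSemistableModel)
    (hT : A.TateConj 0) : WeightMonodromy X.toSemistableModel :=
  mw_main_two hq X A hX hN h2 hT

end Pool.Agent.Results.MP_d037d4_ag.ThreefoldsMaximalRank
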